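import Pool.Agent.Run7.h840.IfaceD

/-!
# Long and short edges on complete bipartite graphs: definitions and pieces

`K_{m,n}`: the points of a strict sign matrix against two unit disks for each line.
-/

namespace Run7.h840.LS

open Pool.Agent.NPC Pool.Agent.NPC.H670R2 Pool.Agent.NPC.ER Pool.Agent.NPC.ER.Pat

/-- Instances: the list of the vertices (natural numbers, written in binary), the list of the short
edges and the list of the long edges. -/
abbrev LCode := List ℕ × List (ℕ × ℕ) × List (ℕ × ℕ)

/-- The vertices of an instance. -/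
abbrev LCode.V (c : LCode) : Type := {v : ℕ // v ∈ c.1}

/-- The graph of the short edges. -/
def LCode.short (c : LCode) : SimpleGraph c.V := SimpleGraph.fromRel fun u v => (u.1, v.1) ∈ c.2.1

/-- The graph of the long edges. -/
def LCode.long (c : LCode) : SimpleGraph c.V := SimpleGraph.fromRel fun u v => (u.1, v.1) ∈ c.2.2

/-- The underlying graph. -/
def LCode.graph (c : LCode) : SimpleGraph c.V := c.short ⊔ c.long

/-- The instance is well formed: the ends of listed edges are distinct listed vertices, and no edge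
is both short and long (so that short and long edges form a partition of the edges). -/
def LCode.WF (c : LCode) : Prop :=
  (∀ e ∈ c.2.1, e.1 ∈ c.1 ∧ e.2 ∈ c.1 ∧ e.1 ≠ e.2) ∧
  (∀ e ∈ c.2.2, e.1 ∈ c.1 ∧ e.2 ∈ c.1 ∧ e.1 ≠ e.2) ∧
  ∀ u v : c.V, ¬ (c.short.Adj u v ∧ c.long.Adj u v)

/-- `G` is a complete bipartite graph `K_{m,n}`, `m, n ≥ 1`. -/
def IsCompleteBipartite {V : Type} (G : SimpleGraph V) : Prop :=
  ∃ S : Set V, S.Nonempty ∧ Sᶜ.Nonempty ∧ ∀ u v, G.Adj u v ↔ ((u ∈ S ∧ v ∉ S) ∨ (u ∉ S ∧ v ∈ S))

/-- `p` is a (non-degenerate) straight-line drawing of the graph with short edges `Gs` and long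
edges `Gl` in which the short edges are exactly the edges of length at most one. -/
structure Realizes {V : Type} (Gs Gl : SimpleGraph V) (p : V → EuclideanSpace ℝ (Fin 2)) :
    Prop where
  inj : Function.Injective p
  free : ∀ u v w, (Gs ⊔ Gl).Adj u v → p w ∉ openSegment ℝ (p u) (p v)
  short : ∀ u v, Gs.Adj u v → dist (p u) (p v) ≤ 1
  long : ∀ u v, Gl.Adj u v → 1 < dist (p u) (p v)

/-- The decision problem: long/short edge realizability for complete bipartite graphs. -/
def LSBip : Set (List Bool) := lang fun c : LCode =>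
  c.WF ∧ IsCompleteBipartite c.graph ∧ ∃ p, Realizes c.short c.long p

/-! ### The reduction -/

/-- all pairs (point, disk); the disks of the line `j` are `3 j + 1`, `3 j + 2` -/
def prs (mP nL : ℕ) : List (ℕ × ℕ) :=
  (List.range mP).flatMap fun i => (List.range nL).flatMap fun j =>
    [(3 * i, 3 * j + 1), (3 * i, 3 * j + 2)]

/-- whether the pair is short -/
def isS (M : List (List Bool)) (e : ℕ × ℕ) : Bool :=
  if e.2 % 3 = 1 then ent M (e.1 / 3) (e.2 / 3) else !ent M (e.1 / 3) (e.2 / 3)

/-- the vertices -/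
def vts (mP nL : ℕ) : List ℕ :=
  (List.range mP).map (fun i => 3 * i) ++
    (List.range nL).flatMap fun j => [3 * j + 1, 3 * j + 2]

/-- the instance of a sign matrix (with one more point and one more line) -/
def bp (M : List (List Bool)) : LCode :=
  (vts (M.length + 1) (wid M + 1), (prs (M.length + 1) (wid M + 1)).filter (isS M),
    (prs (M.length + 1) (wid M + 1)).filter fun e => !isS M e)

/-- **L1.** -/
def S_L1 : Prop := Poly bp

/-- **L2.** -/
def S_L2 : Prop := ∀ M, (bp M).WF ∧ IsCompleteBipartite (bp M).graph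

/-- **L3 (soundness).**  PROOF.  `z i` = position of `3 i`, `q`, `q'` positions of `3 j + 1`,
`3 j + 2`: `‖z - q'‖² - ‖z - q‖²` is affine in `z`; coordinates of `EuclideanSpace ℝ (Fin 2)`. -/
def S_L3 : Prop := ∀ M, (∃ p, Realizes (bp M).short (bp M).long p) →
  Lin (ent M) (M.length + 1) (wid M + 1)

/-- **L4 (general position).**  PROOF.  Induction on `n`: the new point has to avoid finitely many
points and lines, which are null sets. -/
def S_L4 : Prop := ∀ (n : ℕ) (p : ℕ → EuclideanSpace ℝ (Fin 2)) (ε : ℝ), 0 < ε →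
  ∃ p' : ℕ → EuclideanSpace ℝ (Fin 2), (∀ i < n, dist (p' i) (p i) ≤ ε) ∧
    (∀ i < n, ∀ j < n, i ≠ j → p' i ≠ p' j) ∧
    ∀ i < n, ∀ j < n, ∀ k < n, i ≠ j → p' k ∉ openSegment ℝ (p' i) (p' j)

/-- **L5 (completeness).**  Uses `S_C1` with `ε = 1` and `S_L4`.

PROOF.  Points `z i`, disks `q j + n j` and `q j - n j`: `‖z - q ∓ n‖² = 1 + ‖z - q‖² ∓ 2 dt (z-q) n`,
all distances differ from `1` (strictly), so a small perturbation does not change them. -/
def S_L5 : Prop := S_C1 → S_L4 → ∀ M, Sig (ent M) (M.length + 1) (wid M + 1) →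
  ∃ p, Realizes (bp M).short (bp M).long p

/-- **L6 (membership, optional).** -/
def S_L6 : Prop := InER LSBip

end Run7.h840.LS
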