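import Pool.Agent.Run7.h840.LS.L3
import Pool.Agent.H625R2.BallMem

namespace Pool.Agent.NPC.H840LS

open Run7.h840.LS Pool.Agent.NPC.H670R2 Pool.Agent.NPC.ER Pool.Agent.NPC.ER.Pat

theorem poly_isS : Poly (fun q : List (List Bool) × (ℕ × ℕ) => isS q.1 q.2) := by
  unfold isS
  have a1 : Poly (fun q : List (List Bool) × (ℕ × ℕ) => q.1) := Poly.fst Poly.id
  have a2 : Poly (fun q : List (List Bool) × (ℕ × ℕ) => q.2.1) := Poly.fst (Poly.snd Poly.id)
  have a3 : Poly (fun q : List (List Bool) × (ℕ × ℕ) => q.2.2) := Poly.snd (Poly.snd Poly.id)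
  have e : Poly (fun q : List (List Bool) × (ℕ × ℕ) => ent q.1 (q.2.1 / 3) (q.2.2 / 3)) :=
    poly_ent a1 (Poly.div a2 (Poly.const _)) (Poly.div a3 (Poly.const _))
  exact Poly.ite (Poly.decide_eq (Poly.mod a3 (Poly.const _)) (Poly.const _)) e (Poly.not e)

theorem poly_prs {α : Type} [TEnc α] {m n : α → ℕ} (hm : UPoly m) (hn : UPoly n) :
    Poly (fun a => prs (m a) (n a)) := by
  unfold prs
  have b2 : Poly (fun q : (α × ℕ) × ℕ => q.1.2) := Poly.snd (Poly.fst Poly.id)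
  have b3 : Poly (fun q : (α × ℕ) × ℕ => q.2) := Poly.snd Poly.id
  have g : Poly (fun q : (α × ℕ) × ℕ =>
      [(3 * q.1.2, 3 * q.2 + 1), (3 * q.1.2, 3 * q.2 + 2)]) := by
    refine Poly.cons (Poly.pair ?_ ?_) (Poly.cons (Poly.pair ?_ ?_) (Poly.const _))
    · exact Poly.mul (Poly.const _) b2
    · exact Poly.add (Poly.mul (Poly.const _) b3) (Poly.const _)
    · exact Poly.mul (Poly.const _) b2
    · exact Poly.add (Poly.mul (Poly.const _) b3) (Poly.const _)
  exact Poly.flatMap (F := fun a i => (List.range (n a)).flatMap fun j =>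
    [(3 * i, 3 * j + 1), (3 * i, 3 * j + 2)]) hm.range
    (Poly.flatMap (F := fun (q : α × ℕ) j => [(3 * q.2, 3 * j + 1), (3 * q.2, 3 * j + 2)])
      (hn.range.comp (Poly.fst Poly.id)) g)

theorem poly_vts {α : Type} [TEnc α] {m n : α → ℕ} (hm : UPoly m) (hn : UPoly n) :
    Poly (fun a => vts (m a) (n a)) := by
  unfold vts
  have b : Poly (fun q : α × ℕ => q.2) := Poly.snd Poly.id
  refine Poly.append (Poly.map (F := fun a i => 3 * i) hm.range (Poly.mul (Poly.const _) b))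
    (Poly.flatMap (F := fun a j => [3 * j + 1, 3 * j + 2]) hn.range
      (Poly.cons (Poly.add (Poly.mul (Poly.const _) b) (Poly.const _))
        (Poly.cons (Poly.add (Poly.mul (Poly.const _) b) (Poly.const _)) (Poly.const _))))

/-- **L1.** -/
theorem L1 : S_L1 := by
  have hm : UPoly (fun M : List (List Bool) => M.length + 1) :=
    UPoly.add (UPoly.length Poly.id) (UPoly.const _)
  have hn : UPoly (fun M : List (List Bool) => wid M + 1) :=
    UPoly.add (upoly_wid Poly.id) (UPoly.const _)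
  exact Poly.pair (poly_vts hm hn) (Poly.pair
    (Poly.filter (p := fun M e => isS M e) (poly_prs hm hn) poly_isS)
    (Poly.filter (p := fun M e => !isS M e) (poly_prs hm hn) (Poly.not poly_isS)))

end Pool.Agent.NPC.H840LS

namespace Run7.h840.LS

open Pool.Agent.NPC Pool.Agent.NPC.H670R2 Pool.Agent.NPC.ER Pool.Agent.NPC.ER.Pat

theorem short_adj (M : List (List Bool)) (u v : (bp M).V) : (bp M).short.Adj u v ↔
    (((u.1, v.1) ∈ prs (M.length + 1) (wid M + 1) ∧ isS M (u.1, v.1) = true) ∨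
      ((v.1, u.1) ∈ prs (M.length + 1) (wid M + 1) ∧ isS M (v.1, u.1) = true)) := by
  rw [LCode.short, SimpleGraph.fromRel_adj]
  simp only [bp, List.mem_filter]
  refine ⟨fun h => h.2, fun h => ⟨fun huv => ?_, h⟩⟩
  subst huv
  rcases h with h | h <;>
  · obtain ⟨i, _, j, _, h' | h'⟩ := mem_prs.1 h.1 <;>
    · have h1 := congrArg Prod.fst h'
      have h2 := congrArg Prod.snd h'
      simp only at h1 h2
      omega

theorem long_adj (M : List (List Bool)) (u v : (bp M).V) : (bp M).long.Adj u v ↔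
    (((u.1, v.1) ∈ prs (M.length + 1) (wid M + 1) ∧ isS M (u.1, v.1) = false) ∨
      ((v.1, u.1) ∈ prs (M.length + 1) (wid M + 1) ∧ isS M (v.1, u.1) = false)) := by
  rw [LCode.long, SimpleGraph.fromRel_adj]
  simp only [bp, List.mem_filter, Bool.not_eq_true']
  refine ⟨fun h => h.2, fun h => ⟨fun huv => ?_, h⟩⟩
  subst huv
  rcases h with h | h <;>
  · obtain ⟨i, _, j, _, h' | h'⟩ := mem_prs.1 h.1 <;>
    · have h1 := congrArg Prod.fst h'
      have h2 := congrArg Prod.snd h'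
      simp only at h1 h2
      omega

theorem mem_prs_mod {mP nL : ℕ} {e : ℕ × ℕ} (h : e ∈ prs mP nL) : e.1 % 3 = 0 ∧ e.2 % 3 ≠ 0 := by
  obtain ⟨i, _, j, _, h' | h'⟩ := mem_prs.1 h <;>
  · have h1 := congrArg Prod.fst h'
    have h2 := congrArg Prod.snd h'
    simp only at h1 h2
    omega

theorem mem_prs_of {mP nL u v : ℕ} (hu : u ∈ vts mP nL) (hv : v ∈ vts mP nL) (h : u % 3 = 0)
    (h' : v % 3 ≠ 0) : (u, v) ∈ prs mP nL := by
  rcases mem_vts.1 hu with ⟨i, hi, h1⟩ | ⟨j, hj, h1⟩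
  · rcases mem_vts.1 hv with ⟨i', hi', h2⟩ | ⟨j, hj, h2⟩
    · omega
    · rw [mem_prs]
      refine ⟨i, hi, j, hj, ?_⟩
      rcases h2 with h2 | h2
      · left; rw [h1, h2]
      · right; rw [h1, h2]
  · omega

/-- **L2.** -/
theorem L2 : S_L2 := by
  intro M
  refine ⟨⟨?_, ?_, ?_⟩, ?_⟩
  · intro e he
    have := (List.mem_filter.1 he).1
    obtain ⟨i, hi, j, hj, h | h⟩ := mem_prs.1 this
    · subst h
      exact ⟨mem_vts.2 (Or.inl ⟨i, hi, rfl⟩), mem_vts.2 (Or.inr ⟨j, hj, Or.inl rfl⟩),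
        by show 3 * i ≠ 3 * j + 1; omega⟩
    · subst h
      exact ⟨mem_vts.2 (Or.inl ⟨i, hi, rfl⟩), mem_vts.2 (Or.inr ⟨j, hj, Or.inr rfl⟩),
        by show 3 * i ≠ 3 * j + 2; omega⟩
  · intro e he
    have := (List.mem_filter.1 he).1
    obtain ⟨i, hi, j, hj, h | h⟩ := mem_prs.1 this
    · subst h
      exact ⟨mem_vts.2 (Or.inl ⟨i, hi, rfl⟩), mem_vts.2 (Or.inr ⟨j, hj, Or.inl rfl⟩),
        by show 3 * i ≠ 3 * j + 1; omega⟩
    · subst h
      exact ⟨mem_vts.2 (Or.inl ⟨i, hi, rfl⟩), mem_vts.2 (Or.inr ⟨j, hj, Or.inr rfl⟩),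
        by show 3 * i ≠ 3 * j + 2; omega⟩
  · rintro u v ⟨h1, h2⟩
    rw [short_adj] at h1
    rw [long_adj] at h2
    rcases h1 with h1 | h1 <;> rcases h2 with h2 | h2
    · rw [h1.2] at h2; simp at h2
    · have := mem_prs_mod h1.1
      have := mem_prs_mod h2.1
      simp only at *
      omega
    · have := mem_prs_mod h1.1
      have := mem_prs_mod h2.1
      simp only at *
      omega
    · rw [h1.2] at h2; simp at h2
  · refine ⟨{v | v.1 % 3 = 0}, ⟨⟨0, mem_vts.2 (Or.inl ⟨0, by omega, rfl⟩)⟩, rfl⟩,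
      ⟨⟨1, mem_vts.2 (Or.inr ⟨0, by omega, Or.inl rfl⟩)⟩, by simp⟩, fun u v => ?_⟩
    show (bp M).short.Adj u v ∨ (bp M).long.Adj u v ↔ _
    rw [short_adj, long_adj]
    simp only [Set.mem_ofPred_eq]
    constructor
    · rintro ((h | h) | h | h)
      · have := mem_prs_mod h.1; simp only at this; left; omega
      · have := mem_prs_mod h.1; simp only at this; right; omega
      · have := mem_prs_mod h.1; simp only at this; left; omega
      · have := mem_prs_mod h.1; simp only at this; right; omega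
    · rintro (⟨h, h'⟩ | ⟨h, h'⟩)
      · have hm := mem_prs_of u.2 v.2 h h'
        rcases hb : isS M (u.1, v.1) with _ | _
        · exact Or.inr (Or.inl ⟨hm, rfl⟩)
        · exact Or.inl (Or.inl ⟨hm, rfl⟩)
      · have hm := mem_prs_of v.2 u.2 h' h
        rcases hb : isS M (v.1, u.1) with _ | _
        · exact Or.inr (Or.inr ⟨hm, rfl⟩)
        · exact Or.inl (Or.inr ⟨hm, rfl⟩)

end Run7.h840.LS
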