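import Pool.Agent.Run7.h840.LS.Defs

namespace Run7.h840.LS

open Pool.Agent.NPC Pool.Agent.NPC.H670R2 Pool.Agent.NPC.ER Pool.Agent.NPC.ER.Pat

theorem mem_prs {mP nL : ℕ} {e : ℕ × ℕ} : e ∈ prs mP nL ↔
    ∃ i < mP, ∃ j < nL, e = (3 * i, 3 * j + 1) ∨ e = (3 * i, 3 * j + 2) := by
  simp [prs, List.mem_flatMap]

theorem mem_vts {mP nL v : ℕ} : v ∈ vts mP nL ↔
    (∃ i < mP, 3 * i = v) ∨ ∃ j < nL, v = 3 * j + 1 ∨ v = 3 * j + 2 := by
  simp [vts, List.mem_flatMap]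

theorem isS_one (M : List (List Bool)) (i j : ℕ) : isS M (3 * i, 3 * j + 1) = ent M i j := by
  have h1 : (3 * j + 1) % 3 = 1 := by omega
  have h2 : 3 * i / 3 = i := by omega
  have h3 : (3 * j + 1) / 3 = j := by omega
  simp [isS, h1, h2, h3]

theorem isS_two (M : List (List Bool)) (i j : ℕ) : isS M (3 * i, 3 * j + 2) = !ent M i j := by
  have h1 : (3 * j + 2) % 3 ≠ 1 := by omega
  have h2 : 3 * i / 3 = i := by omega
  have h3 : (3 * j + 2) / 3 = j := by omega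
  simp [isS, h1, h2, h3]

theorem dist_sq_coord (a b : EuclideanSpace ℝ (Fin 2)) :
    dist a b ^ 2 = (a 0 - b 0) ^ 2 + (a 1 - b 1) ^ 2 := by
  rw [EuclideanSpace.dist_eq, Real.sq_sqrt (by positivity)]
  simp [Real.dist_eq, sq_abs]

theorem le_of_dist {a b : EuclideanSpace ℝ (Fin 2)} (h : dist a b ≤ 1) :
    (a 0 - b 0) ^ 2 + (a 1 - b 1) ^ 2 ≤ 1 := by
  rw [← dist_sq_coord]
  have := dist_nonneg (x := a) (y := b)
  nlinarith

theorem lt_of_dist {a b : EuclideanSpace ℝ (Fin 2)} (h : 1 < dist a b) :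
    1 < (a 0 - b 0) ^ 2 + (a 1 - b 1) ^ 2 := by
  rw [← dist_sq_coord]
  nlinarith

open Classical in
/-- **L3.** -/
theorem L3 : S_L3 := by
  rintro M ⟨p, hp⟩
  set P : ℕ → EuclideanSpace ℝ (Fin 2) := fun v =>
    if h : v ∈ (bp M).1 then p ⟨v, h⟩ else 0 with hP
  have hs : ∀ i < M.length + 1, ∀ k, (3 * i, k) ∈ (bp M).2.1 → 3 * i ≠ k →
      k ∈ (bp M).1 → dist (P (3 * i)) (P k) ≤ 1 := by
    intro i hi k hk hne hv
    have hi' : 3 * i ∈ (bp M).1 := mem_vts.2 (Or.inl ⟨i, hi, rfl⟩)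
    simp only [hP, hi', hv, dif_pos]
    refine hp.short _ _ ?_
    rw [LCode.short, SimpleGraph.fromRel_adj]
    exact ⟨fun h => hne (congrArg Subtype.val h), Or.inl hk⟩
  have hl : ∀ i < M.length + 1, ∀ k, (3 * i, k) ∈ (bp M).2.2 → 3 * i ≠ k →
      k ∈ (bp M).1 → 1 < dist (P (3 * i)) (P k) := by
    intro i hi k hk hne hv
    have hi' : 3 * i ∈ (bp M).1 := mem_vts.2 (Or.inl ⟨i, hi, rfl⟩)
    simp only [hP, hi', hv, dif_pos]
    refine hp.long _ _ ?_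
    rw [LCode.long, SimpleGraph.fromRel_adj]
    exact ⟨fun h => hne (congrArg Subtype.val h), Or.inl hk⟩
  refine ⟨fun i => ⟨P (3 * i) 0, P (3 * i) 1⟩,
    fun j => ⟨2 * (P (3 * j + 1) 0 - P (3 * j + 2) 0), 2 * (P (3 * j + 1) 1 - P (3 * j + 2) 1)⟩,
    fun j => (P (3 * j + 2) 0) ^ 2 + (P (3 * j + 2) 1) ^ 2 - (P (3 * j + 1) 0) ^ 2 -
      (P (3 * j + 1) 1) ^ 2, fun i hi j hj => ?_⟩
  have hv1 : 3 * j + 1 ∈ (bp M).1 := mem_vts.2 (Or.inr ⟨j, hj, Or.inl rfl⟩)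
  have hv2 : 3 * j + 2 ∈ (bp M).1 := mem_vts.2 (Or.inr ⟨j, hj, Or.inr rfl⟩)
  have hm1 : (3 * i, 3 * j + 1) ∈ prs (M.length + 1) (wid M + 1) :=
    mem_prs.2 ⟨i, hi, j, hj, Or.inl rfl⟩
  have hm2 : (3 * i, 3 * j + 2) ∈ prs (M.length + 1) (wid M + 1) :=
    mem_prs.2 ⟨i, hi, j, hj, Or.inr rfl⟩
  have hn1 : 3 * i ≠ 3 * j + 1 := by omega
  have hn2 : 3 * i ≠ 3 * j + 2 := by omega
  constructor
  · intro h
    have a1 := le_of_dist (hs i hi (3 * j + 1) (List.mem_filter.2 ⟨hm1, by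
      rw [isS_one]; exact h⟩) hn1 hv1)
    have a2 := lt_of_dist (hl i hi (3 * j + 2) (List.mem_filter.2 ⟨hm2, by
      simp [isS_two, h]⟩) hn2 hv2)
    simp only [dt]
    nlinarith
  · intro h
    have a1 := lt_of_dist (hl i hi (3 * j + 1) (List.mem_filter.2 ⟨hm1, by
      simp [isS_one, h]⟩) hn1 hv1)
    have a2 := le_of_dist (hs i hi (3 * j + 2) (List.mem_filter.2 ⟨hm2, by
      simp [isS_two, h]⟩) hn2 hv2)
    simp only [dt]
    nlinarith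

end Run7.h840.LS
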