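import Pool.Agent.Run7.h840.LS.Defs

namespace Run7.h840.LS

open MeasureTheory

theorem line_ne_top (a b : EuclideanSpace ℝ (Fin 2)) :
    affineSpan ℝ ({a, b} : Set (EuclideanSpace ℝ (Fin 2))) ≠ ⊤ := by
  intro h
  have h1 := collinear_iff_finrank_le_one.1 (collinear_pair ℝ a b)
  have h2 : vectorSpan ℝ ({a, b} : Set (EuclideanSpace ℝ (Fin 2))) = ⊤ := by
    rw [← direction_affineSpan, h, AffineSubspace.direction_top]
  rw [h2, finrank_top] at h1
  simp at h1

theorem exists_off_lines (n : ℕ) (p : ℕ → EuclideanSpace ℝ (Fin 2))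
    (y : EuclideanSpace ℝ (Fin 2)) (ε : ℝ) (hε : 0 < ε) :
    ∃ x, dist x y ≤ ε ∧ ∀ i < n, ∀ j < n,
      x ∉ affineSpan ℝ ({p i, p j} : Set (EuclideanSpace ℝ (Fin 2))) := by
  by_contra hcon
  push Not at hcon
  have hsub : Metric.ball y ε ⊆ ⋃ e ∈ (Finset.range n ×ˢ Finset.range n : Finset (ℕ × ℕ)),
      (affineSpan ℝ ({p e.1, p e.2} : Set (EuclideanSpace ℝ (Fin 2))) :
        Set (EuclideanSpace ℝ (Fin 2))) := by
    intro x hx
    obtain ⟨i, hi, j, hj, h⟩ := hcon x (Metric.mem_ball.1 hx).le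
    simp only [Set.mem_iUnion]
    exact ⟨(i, j), Finset.mem_product.2 ⟨Finset.mem_range.2 hi, Finset.mem_range.2 hj⟩, h⟩
  have h0 : volume (⋃ e ∈ (Finset.range n ×ˢ Finset.range n : Finset (ℕ × ℕ)),
      (affineSpan ℝ ({p e.1, p e.2} : Set (EuclideanSpace ℝ (Fin 2))) :
        Set (EuclideanSpace ℝ (Fin 2)))) = 0 := by
    refine (measure_biUnion_null_iff (Finset.countable_toSet (Finset.range n ×ˢ Finset.range n))).2
      fun e _ => ?_
    exact Measure.addHaar_affineSubspace _ _ (line_ne_top _ _)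
  have h1 := measure_mono_null hsub h0
  exact (Metric.measure_ball_pos volume y hε).ne' h1

theorem genpos (p : ℕ → EuclideanSpace ℝ (Fin 2)) (ε : ℝ) (hε : 0 < ε) (n : ℕ) :
    ∃ p' : ℕ → EuclideanSpace ℝ (Fin 2), (∀ i < n, dist (p' i) (p i) ≤ ε) ∧
      (∀ i < n, ∀ j < n, i ≠ j → p' i ≠ p' j) ∧
      ∀ i < n, ∀ j < n, ∀ k < n, i ≠ j → i ≠ k → j ≠ k →
        ¬ Collinear ℝ ({p' i, p' j, p' k} : Set (EuclideanSpace ℝ (Fin 2))) := by
  induction n with
  | zero => exact ⟨p, by simp, by simp, by simp⟩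
  | succ n ih =>
    obtain ⟨q, h1, h2, h3⟩ := ih
    obtain ⟨x, hx, hx'⟩ := exists_off_lines n q (p n) ε hε
    have hq : ∀ i < n, Function.update q n x i = q i := fun i hi =>
      Function.update_of_ne (by omega) _ _
    have hn : Function.update q n x n = x := Function.update_self _ _ _
    have hne : ∀ i < n, x ≠ q i := by
      intro i hi h
      exact hx' i hi i hi (h ▸ mem_affineSpan ℝ (by simp))
    refine ⟨Function.update q n x, ?_, ?_, ?_⟩
    · intro i hi
      rcases Nat.lt_succ_iff_lt_or_eq.1 hi with hi | rfl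
      · rw [hq i hi]; exact h1 i hi
      · rw [hn]; exact hx
    · intro i hi j hj hij
      rcases Nat.lt_succ_iff_lt_or_eq.1 hi with hi | rfl
      · rcases Nat.lt_succ_iff_lt_or_eq.1 hj with hj | rfl
        · rw [hq i hi, hq j hj]; exact h2 i hi j hj hij
        · rw [hq i hi, hn]; exact (hne i hi).symm
      · rcases Nat.lt_succ_iff_lt_or_eq.1 hj with hj | rfl
        · rw [hn, hq j hj]; exact hne j hj
        · exact absurd rfl hij
    · intro i hi j hj k hk hij hik hjk hc
      rcases Nat.lt_succ_iff_lt_or_eq.1 hi with hi | rfl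
      · rcases Nat.lt_succ_iff_lt_or_eq.1 hj with hj | rfl
        · rcases Nat.lt_succ_iff_lt_or_eq.1 hk with hk | rfl
          · rw [hq i hi, hq j hj, hq k hk] at hc
            exact h3 i hi j hj k hk hij hik hjk hc
          · rw [hq i hi, hq j hj, hn] at hc
            exact hx' i hi j hj (hc.mem_affineSpan_of_mem_of_ne (by simp) (by simp) (by simp)
              (h2 i hi j hj hij))
        · have hk : k < j := by omega
          rw [hq i hi, hn, hq k hk] at hc
          exact hx' i hi k hk (hc.mem_affineSpan_of_mem_of_ne (by simp) (by simp) (by simp)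
            (h2 i hi k hk hik))
      · have hj : j < i := by omega
        have hk : k < i := by omega
        rw [hn, hq j hj, hq k hk] at hc
        exact hx' j hj k hk (hc.mem_affineSpan_of_mem_of_ne (by simp) (by simp) (by simp)
          (h2 j hj k hk hjk))

/-- **L4.** -/
theorem L4 : S_L4 := by
  intro n p ε hε
  obtain ⟨q, h1, h2, h3⟩ := genpos p ε hε n
  refine ⟨q, h1, h2, fun i hi j hj k hk hij h => ?_⟩
  have hne := h2 i hi j hj hij
  by_cases hki : i = k
  · subst hki
    exact hne (left_mem_openSegment_iff.1 h)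
  by_cases hkj : j = k
  · subst hkj
    exact hne (right_mem_openSegment_iff.1 h)
  have hw : Wbtw ℝ (q i) (q k) (q j) := mem_segment_iff_wbtw.1 (openSegment_subset_segment _ _ _ h)
  exact h3 i hi k hk j hj hki hij (fun h => hkj h.symm) hw.collinear

end Run7.h840.LS
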